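import Pool.Agent.H6.FA2

namespace Pool.Agent.Results.MP_5446c4_an.NoInjective

open Pool.Agent.H6.FA

universe v

/-- There is a Frechet algebra none of whose non-zero Frechet modules is injective. Moreover there
is a commutative unital Frechet algebra such that no non-zero unital Frechet module is injective in
the category of unital Frechet modules. -/
theorem result :
    (∃ 𝒜 : FAlg.{0}, ∀ X : FMod.{0, v} 𝒜, (∃ x : X.X, x ≠ 0) → ¬ Injective X) ∧
    (∃ (𝒜 : FAlg.{0}) (e : 𝒜.A), IsUnitComm 𝒜 e ∧
      ∀ X : FMod.{0, v} 𝒜, Unital e X → (∃ x : X.X, x ≠ 0) → ¬ InjectiveIn (Unital e) X) :=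
  Pool.Agent.H6.FA.main

end Pool.Agent.Results.MP_5446c4_an.NoInjective
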